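import Pool.Agent.H484.HH.Stm

set_option autoImplicit false

open Finset

namespace Pool.Agent.H484.HH

theorem exp_inner (hDYAD : S_DYAD) (c x T : ℝ) (L : ℕ) (hc : 0 ≤ c) (hx : 0 < x) (hT : 1 ≤ T) :
    ∑ j0 ∈ range (L + 1), (if 1 ≤ 2 * (2 ^ j0 * x) ∨ j0 = L then
      c * min 1 (Real.sqrt (T / (2 ^ j0 * x))) else 0) ≤ c * (11 + 10 * Real.log T) := by
  have hm : ∀ j0 : ℕ, 0 ≤ min 1 (Real.sqrt (T / (2 ^ j0 * x))) := fun j0 =>
    le_min zero_le_one (Real.sqrt_nonneg _)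
  have h1 : ∀ j0 ∈ range (L + 1), (if 1 ≤ 2 * (2 ^ j0 * x) ∨ j0 = L then
      c * min 1 (Real.sqrt (T / (2 ^ j0 * x))) else 0) ≤
      c * (if 1 ≤ 2 * (2 ^ j0 * x) then min 1 (Real.sqrt (T / (2 ^ j0 * x))) else 0) +
        (if j0 = L then c else 0) := by
    intro j0 _
    by_cases ha : 1 ≤ 2 * (2 ^ j0 * x)
    · rw [if_pos (Or.inl ha), if_pos ha]
      have : (0 : ℝ) ≤ if j0 = L then c else 0 := by split_ifs <;> simp [hc]
      linarith
    · by_cases hb : j0 = L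
      · rw [if_pos (Or.inr hb), if_neg ha, if_pos hb, mul_zero, zero_add]
        exact mul_le_of_le_one_right hc (min_le_left _ _)
      · rw [if_neg (fun h => h.elim ha hb), if_neg ha, if_neg hb, mul_zero, zero_add]
  refine (Finset.sum_le_sum h1).trans ?_
  rw [Finset.sum_add_distrib, ← Finset.mul_sum, ← Finset.sum_filter, Finset.sum_ite_eq',
    if_pos (Finset.mem_range.2 (Nat.lt_succ_self L))]
  have h2 := mul_le_mul_of_nonneg_left (hDYAD x T (L + 1) hx hT) hc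
  linarith

theorem t_EXP (hTERM : S_TERM) (hDYAD : S_DYAD) : S_EXP := by
  intro N hN t T hT G hG
  have hN2 : (2 : ℝ) ≤ N := by exact_mod_cast hN.out.two_le
  set L : ℕ := Nat.log 2 N with hL
  set c : ℝ := 2 * 5 ^ (t + 1) * ((N : ℝ) - 1) ^ t with hc
  have hc0 : 0 ≤ c := by
    rw [hc]
    have : (0 : ℝ) ≤ (N : ℝ) - 1 := by linarith
    positivity
  have h1 : ∀ j0 ∈ range (L + 1), ∀ j ∈ Js N t,
      ∑ h ∈ G, (if 1 ≤ 2 * V N j0 j ∨ j0 = L then
        V N j0 j * ∑ k ∈ univ.filter (fun k : Fin t → ZMod N => k ≠ 0),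
          W j0 (-(∑ i, k i * (h i : ZMod N))) * ∏ i, W (j i) (k i) else 0) ≤
      if 1 ≤ 2 * V N j0 j ∨ j0 = L then c * min 1 (Real.sqrt (T / V N j0 j)) else 0 := by
    intro j0 hj0 j hj
    by_cases hcd : 1 ≤ 2 * V N j0 j ∨ j0 = L
    · simp only [if_pos hcd]
      exact hTERM N t T j0 j hT (Nat.lt_succ_iff.1 (Finset.mem_range.1 hj0)) hj G hG
    · simp only [if_neg hcd, Finset.sum_const_zero]
      exact le_refl _
  have h2 : ∀ j : Fin t → ℕ, ∑ j0 ∈ range (L + 1),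
      (if 1 ≤ 2 * V N j0 j ∨ j0 = L then c * min 1 (Real.sqrt (T / V N j0 j)) else 0) ≤
      c * (11 + 10 * Real.log T) := by
    intro j
    have hx : 0 < ∏ i, ((2 : ℝ) ^ j i / N) := by
      apply Finset.prod_pos
      intro i _
      have : (0 : ℝ) < N := by linarith
      positivity
    exact exp_inner hDYAD c _ T L hc0 hx hT
  have hcard : ((Js N t).card : ℝ) = ((L : ℝ) + 1) ^ t := by
    rw [Js, Fintype.card_piFinset, Finset.prod_const, Finset.card_univ, Fintype.card_fin,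
      Finset.card_range]
    push_cast
    rfl
  calc ∑ h ∈ G, SF (fun i => (h i : ZMod N))
      = ∑ j0 ∈ range (L + 1), ∑ j ∈ Js N t, ∑ h ∈ G, (if 1 ≤ 2 * V N j0 j ∨ j0 = L then
        V N j0 j * ∑ k ∈ univ.filter (fun k : Fin t → ZMod N => k ≠ 0),
          W j0 (-(∑ i, k i * (h i : ZMod N))) * ∏ i, W (j i) (k i) else 0) := by
        unfold SF
        rw [Finset.sum_comm]
        refine Finset.sum_congr rfl fun j0 _ => ?_
        rw [Finset.sum_comm]
    _ ≤ ∑ j0 ∈ range (L + 1), ∑ j ∈ Js N t,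
        (if 1 ≤ 2 * V N j0 j ∨ j0 = L then c * min 1 (Real.sqrt (T / V N j0 j)) else 0) :=
        Finset.sum_le_sum fun j0 hj0 => Finset.sum_le_sum fun j hj => h1 j0 hj0 j hj
    _ = ∑ j ∈ Js N t, ∑ j0 ∈ range (L + 1),
        (if 1 ≤ 2 * V N j0 j ∨ j0 = L then c * min 1 (Real.sqrt (T / V N j0 j)) else 0) :=
        Finset.sum_comm
    _ ≤ ∑ _j ∈ Js N t, c * (11 + 10 * Real.log T) := Finset.sum_le_sum fun j _ => h2 j
    _ = c * ((L : ℝ) + 1) ^ t * (11 + 10 * Real.log T) := by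
        rw [Finset.sum_const, nsmul_eq_mul, hcard]
        ring

end Pool.Agent.H484.HH
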